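import Pool.Agent.N229.PG.Stm

namespace PG

open Complex Filter Topology Metric Set

theorem x261_pt (t : ℝ) (h0 : 0 ≤ t) (h1 : t ≤ 1) :
    ‖pt t‖ = 1 ∧ ‖1 - pt t‖ = t ∧ 0 ≤ (pt t).im ∧ 0 ≤ (pt t).re := by
  have hs : 0 ≤ 1 - t ^ 2 / 4 := by nlinarith
  have hsq : Real.sqrt (1 - t ^ 2 / 4) * Real.sqrt (1 - t ^ 2 / 4) = 1 - t ^ 2 / 4 :=
    Real.mul_self_sqrt hs
  have hn := Real.sqrt_nonneg (1 - t ^ 2 / 4)
  refine ⟨?_, ?_, ?_, ?_⟩
  · rw [← sq_eq_sq₀ (norm_nonneg _) zero_le_one, Complex.sq_norm, Complex.normSq_apply]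
    simp only [pt]
    linear_combination t ^ 2 * hsq
  · rw [← sq_eq_sq₀ (norm_nonneg _) h0, Complex.sq_norm, Complex.normSq_apply]
    simp only [pt, Complex.sub_re, Complex.sub_im, Complex.one_re, Complex.one_im]
    linear_combination t ^ 2 * hsq
  · exact mul_nonneg h0 hn
  · show (0 : ℝ) ≤ 1 - t ^ 2 / 2
    nlinarith

theorem x261_sqrt (s t : ℝ) (hs0 : 0 ≤ s) (hs1 : s ≤ 1) (ht0 : 0 ≤ t) (ht1 : t ≤ 1) :
    |Real.sqrt (1 - s ^ 2 / 4) - Real.sqrt (1 - t ^ 2 / 4)| ≤ |s - t| := by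
  have hs : (1 / 4 : ℝ) ≤ 1 - s ^ 2 / 4 := by nlinarith
  have ht : (1 / 4 : ℝ) ≤ 1 - t ^ 2 / 4 := by nlinarith
  have h1 : (1 / 2 : ℝ) ≤ Real.sqrt (1 - s ^ 2 / 4) := by
    apply Real.le_sqrt_of_sq_le
    linarith
  have h2 : (1 / 2 : ℝ) ≤ Real.sqrt (1 - t ^ 2 / 4) := by
    apply Real.le_sqrt_of_sq_le
    linarith
  have e1 := Real.mul_self_sqrt (show (0 : ℝ) ≤ 1 - s ^ 2 / 4 by linarith)
  have e2 := Real.mul_self_sqrt (show (0 : ℝ) ≤ 1 - t ^ 2 / 4 by linarith)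
  set u := Real.sqrt (1 - s ^ 2 / 4)
  set v := Real.sqrt (1 - t ^ 2 / 4)
  have e3 : (u - v) * (u + v) = -(s - t) * ((s + t) / 4) := by linear_combination e1 - e2
  have e4 : |u - v| * (u + v) = |s - t| * ((s + t) / 4) := by
    have := congrArg abs e3
    rw [abs_mul, abs_mul, abs_neg, abs_of_nonneg (show 0 ≤ u + v by linarith),
      abs_of_nonneg (show 0 ≤ (s + t) / 4 by linarith)] at this
    exact this
  have e5 : |u - v| * 1 ≤ |u - v| * (u + v) :=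
    mul_le_mul_of_nonneg_left (by linarith) (abs_nonneg _)
  have e6 : |s - t| * ((s + t) / 4) ≤ |s - t| * 1 :=
    mul_le_mul_of_nonneg_left (by linarith) (abs_nonneg _)
  linarith

theorem x261_lip (s t : ℝ) (hs0 : 0 ≤ s) (hs1 : s ≤ 1) (ht0 : 0 ≤ t) (ht1 : t ≤ 1) :
    ‖pt s - pt t‖ ≤ 4 * |s - t| := by
  have h := Complex.norm_le_abs_re_add_abs_im (pt s - pt t)
  have hre : |(pt s - pt t).re| ≤ |s - t| := by
    have : (pt s - pt t).re = -(s - t) * ((s + t) / 2) := by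
      simp only [pt, Complex.sub_re]
      ring
    rw [this, abs_mul, abs_neg, abs_of_nonneg (show 0 ≤ (s + t) / 2 by linarith)]
    calc |s - t| * ((s + t) / 2) ≤ |s - t| * 1 :=
          mul_le_mul_of_nonneg_left (by linarith) (abs_nonneg _)
      _ = |s - t| := mul_one _
  have him : |(pt s - pt t).im| ≤ |s - t| + |s - t| := by
    have : (pt s - pt t).im = (s - t) * Real.sqrt (1 - s ^ 2 / 4) +
        t * (Real.sqrt (1 - s ^ 2 / 4) - Real.sqrt (1 - t ^ 2 / 4)) := by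
      simp only [pt, Complex.sub_im]
      ring
    rw [this]
    refine (abs_add_le _ _).trans (add_le_add ?_ ?_)
    · rw [abs_mul, abs_of_nonneg (Real.sqrt_nonneg (1 - s ^ 2 / 4))]
      have h1 : Real.sqrt (1 - s ^ 2 / 4) ≤ 1 := by
        rw [← Real.sqrt_one]
        exact Real.sqrt_le_sqrt (by nlinarith)
      calc |s - t| * Real.sqrt (1 - s ^ 2 / 4) ≤ |s - t| * 1 :=
            mul_le_mul_of_nonneg_left h1 (abs_nonneg _)
        _ = |s - t| := mul_one _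
    · rw [abs_mul, abs_of_nonneg ht0]
      have := x261_sqrt s t hs0 hs1 ht0 ht1
      calc t * |Real.sqrt (1 - s ^ 2 / 4) - Real.sqrt (1 - t ^ 2 / 4)|
          ≤ 1 * |Real.sqrt (1 - s ^ 2 / 4) - Real.sqrt (1 - t ^ 2 / 4)| :=
            mul_le_mul_of_nonneg_right ht1 (abs_nonneg _)
        _ ≤ |s - t| := by rw [one_mul]; exact this
  have h0 := abs_nonneg (s - t)
  linarith

theorem x261_exp (x : ℝ) (hx0 : 0 ≤ x) (hx1 : x ≤ Real.pi) :
    Complex.exp ((x : ℂ) * I) = pt (2 * Real.sin (x / 2)) := by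
  have hc : 0 ≤ Real.cos (x / 2) :=
    Real.cos_nonneg_of_neg_pi_div_two_le_of_le (by linarith [Real.pi_pos]) (by linarith)
  have hsc := Real.sin_sq_add_cos_sq (x / 2)
  have e1 : Real.sqrt (1 - (2 * Real.sin (x / 2)) ^ 2 / 4) = Real.cos (x / 2) := by
    rw [show 1 - (2 * Real.sin (x / 2)) ^ 2 / 4 = Real.cos (x / 2) ^ 2 by
      linear_combination -hsc]
    exact Real.sqrt_sq hc
  have e2 : Real.cos x = 2 * Real.cos (x / 2) ^ 2 - 1 := by
    rw [← Real.cos_two_mul]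
    congr 1
    ring
  have e3 : Real.sin x = 2 * Real.sin (x / 2) * Real.cos (x / 2) := by
    rw [← Real.sin_two_mul]
    congr 1
    ring
  apply Complex.ext
  · rw [Complex.exp_ofReal_mul_I_re]
    show Real.cos x = 1 - (2 * Real.sin (x / 2)) ^ 2 / 2
    rw [e2]
    linear_combination 2 * hsc
  · rw [Complex.exp_ofReal_mul_I_im]
    show Real.sin x = 2 * Real.sin (x / 2) *
      Real.sqrt (1 - (2 * Real.sin (x / 2)) ^ 2 / 4)
    rw [e1, e3]

/-- Leaf X. -/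
theorem leaf_X : StmX := by
  refine ⟨fun t h0 h1 => x261_pt t h0 h1, ?_⟩
  intro x t hx0 hx1 hs ht0 ht1
  rw [x261_exp x hx0 hx1]
  refine x261_lip _ _ ?_ hs ht0 ht1
  exact mul_nonneg zero_le_two (Real.sin_nonneg_of_nonneg_of_le_pi (by linarith) (by linarith))

end PG
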